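import Pool.Agent.H5.Mf7573eDefs
import Pool.Agent.H5.Mf7573e

set_option autoImplicit false

namespace Pool.Agent.Results.MP_f7573e_al.UnitCoefficient

open Pool.Agent.H5.Mf7573e

/-- Question Q1 has a negative answer: there are an associative ring `R` (without unit) and a
degree `d = n + 1` such that `R` satisfies an identity of degree `d` with coprime coefficients,
while no multilinear identity of degree `d` of `R` has a coefficient equal to `1`. -/
theorem result : ∃ (R : Type) (_ : NonUnitalRing R) (n : ℕ),
    (∃ f : FreeRing, Satisfies R f ∧ degree f = n + 1 ∧ CoprimeCoefficients f) ∧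
    ∀ α : Equiv.Perm (Fin (n + 1)) → ℤ, Satisfies R (multilinear α) → ∀ σ, α σ ≠ 1 :=
  main

end Pool.Agent.Results.MP_f7573e_al.UnitCoefficient
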